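import Mathlib
import Pool.Agent.MP_9bf990_al.OS.Bridge

namespace Pool.Agent.Results.MP_9bf990_al.MeetHereditary

open Pool.Agent.MP_9bf990_al Pool.Agent.MP_9bf990_al.OSD

/-- A saturated formation `F` is subgroup-closed if and only if, in every group `G` that belongs
to `F`, the intersection of two `F`-subnormal subgroups is `F`-subnormal. -/
theorem result (F : (G : Type) → [Group G] → Prop) (hF : IsSatFormation F) :
    (∀ (G : Type) [Group G], F G → ∀ H : Subgroup G, F H) ↔
    (∀ (G : Type) [Group G], F G → ∀ A B : Subgroup G,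
      FSubnormal F A → FSubnormal F B → FSubnormal F (A ⊓ B)) := by
  simp only [sn_iff hF]
  exact ⟨fun h G _ hG _ _ _ _ => SatForm.OS.sn_of_hereditary (𝔉 := hF.bundle) hG (h G hG) _,
    fun h _ _ hG H => SatForm.OS.hereditary_of_meet (𝔉 := hF.bundle) h hG H⟩

end Pool.Agent.Results.MP_9bf990_al.MeetHereditary
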